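import Mathlib
import Pool.Agent.Helper459.SK.FDefs
import Pool.Agent.Helper459.SK.PDefs
import Pool.Agent.Helper459.SK.NDefs
import Pool.Agent.Helper459.SK.L_mainn
import Pool.Agent.Helper459.SK.L_classicaln
import Pool.Agent.Helper459.SK.L_conesn
import Pool.Agent.Helper459.SK.L_an_adm
import Pool.Agent.Helper459.SK.L_ex_main
import Pool.Agent.Helper459.SK.L_toopn
import Pool.Agent.Helper459.SK.L_ofopn
import Pool.Agent.Helper459.SK.L_wfopn

set_option autoImplicit false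

open MeasureTheory Set
open Pool.Agent.Helper459.Schr

namespace Pool.Agent.Results.MP_5698f2_an.AllDims

theorem adm (n : ℕ) (hn : 2 ≤ n) : Admissible (Pool.Agent.Helper459.SK.An n) := by
  have h := Pool.Agent.Helper459.SK.N_an_adm.an_adm n hn
  refine ⟨h.smooth, fun x j l => ?_, h.pos, ?_⟩
  · have := congrFun (congrFun (h.symm x) j) l
    simpa [Matrix.transpose_apply] using this.symm
  · obtain ⟨ε, hε, hk⟩ := h.decay
    refine ⟨ε, hε, fun k => ?_⟩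
    obtain ⟨C, hC⟩ := hk k
    exact ⟨C, fun x j l => hC x j l⟩

/-- Negative answer to the question in every dimension `n ≥ 2`: there is an admissible `A` on
`ℝⁿ`, whose propagator exists, and for every propagator `U` of `A` there are a time `t > 0`, a
point `((x₀,ξ₀),(y₀,η₀))` of the wave front relation of the kernel of `U t`, and conic
neighbourhoods `V` of `(x₀,ξ₀)` and `W` of `(y₀,η₀)` such that no bicharacteristic starting in
`W` is in `V` at any time `s ≥ 0`. -/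
theorem result (n : ℕ) (hn : 2 ≤ n) :
    ∃ A : E n → Matrix (Fin n) (Fin n) ℝ, Admissible A ∧
      (∃ U : ℝ → (E n → ℂ) → (E n → ℂ), IsPropagator A U) ∧
      ∀ U : ℝ → (E n → ℂ) → (E n → ℂ), IsPropagator A U →
        ∃ t : ℝ, 0 < t ∧ ∃ x₀ ξ₀ y₀ η₀ : E n, InWF (U t) x₀ ξ₀ y₀ η₀ ∧
          ∃ V W : Set (E n × E n), ConicNhd V x₀ ξ₀ ∧ ConicNhd W y₀ η₀ ∧
            ∀ s : ℝ, 0 ≤ s → ∀ x ξ : ℝ → E n, IsBichar A s x ξ →
              (x 0, ξ 0) ∈ W → (x s, ξ s) ∉ V := by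
  have hA := Pool.Agent.Helper459.SK.N_an_adm.an_adm n hn
  refine ⟨Pool.Agent.Helper459.SK.An n, adm n hn, ?_, fun U hU => ?_⟩
  · obtain ⟨U', hU'⟩ := Pool.Agent.Helper459.SK.N_ex_main.ex_main (Pool.Agent.Helper459.SK.An n) hA
    exact Pool.Agent.Helper459.SK.N_ofopn.ofopn _ hA U' hU'
  · obtain ⟨U', hU', hrel⟩ := Pool.Agent.Helper459.SK.N_toopn.toopn _ hA U hU
    obtain ⟨k, rfl⟩ : ∃ k, n = k + 2 := ⟨n - 2, by omega⟩
    obtain ⟨t, ht, p, hp, q, hq, h⟩ := Pool.Agent.Helper459.SK.N_mainn.mainn k U' hU'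
    obtain ⟨h1, h2, h3, h4, h5, h6⟩ := Pool.Agent.Helper459.SK.N_conesn.conesn (k + 2)
    refine ⟨t, ht, p.1, p.2, q.1, q.2,
      Pool.Agent.Helper459.SK.N_wfopn.wfopn (U' t) (U t) (hrel t) p.1 p.2 q.1 q.2 (h5 p hp) h,
      Pool.Agent.Helper459.SK.VVn (k + 2), Pool.Agent.Helper459.SK.WWn (k + 2),
      ⟨hp, h1, fun x ξ hx => h5 (x, ξ) hx, fun x ξ hx r hr => h3 (x, ξ) hx r hr⟩,
      ⟨hq, h2, fun x ξ hx => h6 (x, ξ) hx, fun x ξ hx r hr => h4 (x, ξ) hx r hr⟩,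
      fun s hs x ξ hb hW => ?_⟩
    refine Pool.Agent.Helper459.SK.N_classicaln.classicaln (k + 2) hn s hs x ξ ?_ hW
    intro τ hτ
    exact ⟨fun i => (hb τ hτ.1 hτ.2 i).1, fun i => (hb τ hτ.1 hτ.2 i).2⟩

end Pool.Agent.Results.MP_5698f2_an.AllDims
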