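import Mathlib
import Pool.Agent.Helper459.SK.FDefs
import Pool.Agent.Helper459.SK.PDefs
import Pool.Agent.Helper459.SK.L_main2
import Pool.Agent.Helper459.SK.L_classical
import Pool.Agent.Helper459.SK.L_cones
import Pool.Agent.Helper459.SK.L_a0_adm
import Pool.Agent.Helper459.SK.L_ex_main
import Pool.Agent.Helper459.SK.L_toop
import Pool.Agent.Helper459.SK.L_ofop
import Pool.Agent.Helper459.SK.L_wfop

set_option autoImplicit false

open MeasureTheory Set
open Pool.Agent.Helper459.Schr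

namespace Pool.Agent.Results.MP_5698f2_an.FlatTops

theorem VV_ne (q : E 2 × E 2) (hq : q ∈ Pool.Agent.Helper459.SK.VV) : q.2 ≠ 0 := by
  intro h
  have := hq.2
  rw [h, inner_zero_right] at this
  exact lt_irrefl _ this

theorem WW_ne (q : E 2 × E 2) (hq : q ∈ Pool.Agent.Helper459.SK.WW) : q.2 ≠ 0 := by
  intro h
  have := hq.2.2
  rw [h] at this
  simp at this

theorem adm : Admissible Pool.Agent.Helper459.SK.A0 := by
  have h := Pool.Agent.Helper459.SK.N_a0_adm.a0_adm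
  refine ⟨h.smooth, fun x j l => ?_, h.pos, ?_⟩
  · have := congrFun (congrFun (h.symm x) j) l
    simpa [Matrix.transpose_apply] using this.symm
  · obtain ⟨ε, hε, hk⟩ := h.decay
    refine ⟨ε, hε, fun k => ?_⟩
    obtain ⟨C, hC⟩ := hk k
    exact ⟨C, fun x j l => hC x j l⟩

/-- Negative answer to the question: there is an admissible `A` (on the plane), whose propagator
exists, and for every propagator `U` of `A` there are a time `t > 0`, a point
`((x₀,ξ₀),(y₀,η₀))` of the wave front relation of the kernel of `U t`, and conic neighbourhoods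
`V` of `(x₀,ξ₀)` and `W` of `(y₀,η₀)` such that no bicharacteristic starting in `W` is in `V` at
any time `s ≥ 0`. -/
theorem result :
    ∃ A : E 2 → Matrix (Fin 2) (Fin 2) ℝ, Admissible A ∧
      (∃ U : ℝ → (E 2 → ℂ) → (E 2 → ℂ), IsPropagator A U) ∧
      ∀ U : ℝ → (E 2 → ℂ) → (E 2 → ℂ), IsPropagator A U →
        ∃ t : ℝ, 0 < t ∧ ∃ x₀ ξ₀ y₀ η₀ : E 2, InWF (U t) x₀ ξ₀ y₀ η₀ ∧
          ∃ V W : Set (E 2 × E 2), ConicNhd V x₀ ξ₀ ∧ ConicNhd W y₀ η₀ ∧
            ∀ s : ℝ, 0 ≤ s → ∀ x ξ : ℝ → E 2, IsBichar A s x ξ →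
              (x 0, ξ 0) ∈ W → (x s, ξ s) ∉ V := by
  have hA := Pool.Agent.Helper459.SK.N_a0_adm.a0_adm
  refine ⟨Pool.Agent.Helper459.SK.A0, adm, ?_, fun U hU => ?_⟩
  · obtain ⟨U', hU'⟩ := Pool.Agent.Helper459.SK.N_ex_main.ex_main Pool.Agent.Helper459.SK.A0 hA
    exact Pool.Agent.Helper459.SK.N_ofop.ofop _ hA U' hU'
  · obtain ⟨U', hU', hrel⟩ := Pool.Agent.Helper459.SK.N_toop.toop _ hA U hU
    obtain ⟨t, ht, p, hp, q, hq, h⟩ := Pool.Agent.Helper459.SK.N_main2.main2 U' hU'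
    obtain ⟨h1, h2, h3, h4⟩ := Pool.Agent.Helper459.SK.N_cones.cones
    refine ⟨t, ht, p.1, p.2, q.1, q.2,
      Pool.Agent.Helper459.SK.N_wfop.wfop (U' t) (U t) (hrel t) p.1 p.2 q.1 q.2 (VV_ne p hp) h,
      Pool.Agent.Helper459.SK.VV, Pool.Agent.Helper459.SK.WW,
      ⟨hp, h1, fun x ξ hx => VV_ne (x, ξ) hx, fun x ξ hx r hr => h3 (x, ξ) hx r hr⟩,
      ⟨hq, h2, fun x ξ hx => WW_ne (x, ξ) hx, fun x ξ hx r hr => h4 (x, ξ) hx r hr⟩,
      fun s hs x ξ hb hW => ?_⟩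
    refine Pool.Agent.Helper459.SK.N_classical.classical s hs x ξ ?_ hW
    intro τ hτ
    exact ⟨fun i => (hb τ hτ.1 hτ.2 i).1, fun i => (hb τ hτ.1 hτ.2 i).2⟩

end Pool.Agent.Results.MP_5698f2_an.FlatTops
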